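import Mathlib

set_option autoImplicit false

/-! MP_257582_lc: kernel-fast checker for refutations (order steps, linear relations, clauses). -/

namespace Pool.Agent.H70.KP

/-- bit as a number -/
def bt (X v : ℕ) : ℕ := Nat.land (Nat.shiftRight X v) 1

/-- bit test -/
def tb (X v : ℕ) : Bool := Nat.beq (Nat.land (Nat.shiftRight X v) 1) 1

/-- adjoin an element -/
def ad (T v : ℕ) : ℕ := Nat.lor T (Nat.shiftLeft 1 v)

theorem tb_eq (m n : ℕ) : tb m n = m.testBit n := by
  unfold tb
  have h1 : Nat.land (Nat.shiftRight m n) 1 = (m >>> n) % 2 := Nat.and_one_is_mod _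
  rw [h1, Bool.eq_iff_iff, Nat.beq_eq, Nat.testBit_eq_decide_div_mod_eq, decide_eq_true_eq,
    Nat.shiftRight_eq_div_pow]

theorem bt_eq (m n : ℕ) : bt m n = if tb m n = true then 1 else 0 := by
  have h1 : Nat.land (Nat.shiftRight m n) 1 = (m >>> n) % 2 := Nat.and_one_is_mod _
  have h2 : bt m n = (m >>> n) % 2 := h1
  have h3 : tb m n = Nat.beq ((m >>> n) % 2) 1 := by unfold tb; rw [h1]
  rw [h2, h3]
  rcases Nat.mod_two_eq_zero_or_one (m >>> n) with h | h <;> rw [h] <;> rfl

theorem tb_ad (T m x : ℕ) (h : tb (ad T m) x = true) : tb T x = true ∨ x = m := by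
  rw [tb_eq] at *
  have h2 : ad T m = T ||| (1 <<< m) := rfl
  rw [h2, Nat.testBit_or, Bool.or_eq_true] at h
  rcases h with h | h
  · exact Or.inl h
  · right
    rw [Nat.shiftLeft_eq, one_mul, Nat.testBit_two_pow] at h
    simpa using (of_decide_eq_true h).symm

/-- state is right -/
def Ok (x : ℕ → ℤ) (T F : ℕ) : Prop :=
  (∀ m, tb T m = true → x m = 1) ∧ ∀ m, tb F m = true → x m = 0

theorem Ok.addT {x : ℕ → ℤ} {T F : ℕ} (h : Ok x T F) (m : ℕ) (hm : x m = 1) :
    Ok x (ad T m) F := by
  refine ⟨fun y hy => ?_, h.2⟩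
  rcases tb_ad T m y hy with h1 | h1
  · exact h.1 y h1
  · rw [h1, hm]

theorem Ok.addF {x : ℕ → ℤ} {T F : ℕ} (h : Ok x T F) (m : ℕ) (hm : x m = 0) :
    Ok x T (ad F m) := by
  refine ⟨h.1, fun y hy => ?_⟩
  rcases tb_ad F m y hy with h1 | h1
  · exact h.2 y h1
  · rw [h1, hm]

theorem Ok.zero (x : ℕ → ℤ) : Ok x 0 0 := by
  refine ⟨fun m hm => ?_, fun m hm => ?_⟩ <;>
  · rw [tb_eq] at hm; simp at hm

/-! relations -/

/-- relation: entries `v * 256 + c`, total -/
inductive Rl
  | mk (P N : List ℕ) (c : ℕ)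

/-- weighted count -/
def cnt (X : ℕ) : List ℕ → ℕ
  | [] => 0
  | e :: l => Nat.add (Nat.mul (bt X (Nat.shiftRight e 8)) (Nat.land e 255)) (cnt X l)

/-- weighted sum -/
def sW (x : ℕ → ℤ) (l : List ℕ) : ℤ := (l.map (fun e => ((e &&& 255 : ℕ) : ℤ) * x (e >>> 8))).sum

/-- the relation holds -/
def Rl.Hold (x : ℕ → ℤ) : Rl → Prop
  | .mk P N c => sW x P = sW x N ∧ sW (fun _ => 1) P = c ∧ sW (fun _ => 1) N = c

/-- the relation is violated (`d = 0`: too many plus; else too many minus) -/
def Rl.bad (r : Rl) (d T F : ℕ) : Bool :=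
  match r with
  | .mk P N c => Bool.rec (motive := fun _ => Bool)
      (Nat.ble (Nat.succ c) (Nat.add (cnt F P) (cnt T N)))
      (Nat.ble (Nat.succ c) (Nat.add (cnt T P) (cnt F N))) (Nat.beq d 0)

theorem cnt_le {x : ℕ → ℤ} (hx : ∀ v, x v = 0 ∨ x v = 1) {T : ℕ}
    (h : ∀ m, tb T m = true → x m = 1) (l : List ℕ) : (cnt T l : ℤ) ≤ sW x l := by
  induction l with
  | nil => simp [cnt, sW]
  | cons e l ih =>
    have e1 : sW x (e :: l) = ((e &&& 255 : ℕ) : ℤ) * x (e >>> 8) + sW x l := by simp [sW]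
    have e2 : cnt T (e :: l) = bt T (e >>> 8) * (e &&& 255) + cnt T l := rfl
    rw [e1, e2, bt_eq]
    split_ifs with h1
    · rw [h _ h1]; push_cast; omega
    · push_cast
      rcases hx (e >>> 8) with h2 | h2 <;> rw [h2] <;> omega

theorem sW_compl (x : ℕ → ℤ) (l : List ℕ) :
    sW (fun v => 1 - x v) l = sW (fun _ => 1) l - sW x l := by
  induction l with
  | nil => simp [sW]
  | cons e l ih =>
    simp only [sW, List.map_cons, List.sum_cons] at *
    rw [ih]; ring

theorem cntF_le {x : ℕ → ℤ} (hx : ∀ v, x v = 0 ∨ x v = 1) {F : ℕ}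
    (h : ∀ m, tb F m = true → x m = 0) (l : List ℕ) :
    (cnt F l : ℤ) ≤ sW (fun _ => 1) l - sW x l := by
  rw [← sW_compl]
  refine cnt_le (x := fun v => 1 - x v) (fun v => ?_) (fun m hm => ?_) l
  · rcases hx v with h1 | h1 <;> rw [h1] <;> simp
  · show 1 - x m = 1
    rw [h m hm]; simp

theorem bad_false {x : ℕ → ℤ} (hx : ∀ v, x v = 0 ∨ x v = 1) {T F : ℕ} (h : Ok x T F)
    (r : Rl) (hr : r.Hold x) (d : ℕ) (hb : r.bad d T F = true) : False := by
  obtain ⟨P, N, c⟩ := r
  obtain ⟨h1, h2, h3⟩ := hr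
  have a1 := cnt_le hx h.1 P
  have a2 := cnt_le hx h.1 N
  have a3 := cntF_le hx h.2 P
  have a4 := cntF_le hx h.2 N
  unfold Rl.bad at hb
  cases hd : Nat.beq d 0 with
  | true =>
    rw [hd] at hb
    have hb' : Nat.succ c ≤ cnt T P + cnt F N := Nat.le_of_ble_eq_true hb
    omega
  | false =>
    rw [hd] at hb
    have hb' : Nat.succ c ≤ cnt F P + cnt T N := Nat.le_of_ble_eq_true hb
    omega

/-! clauses: packed literals `2 v + s` in 16 bits, `s = 0`: `x v = 1`, `s = 1`: `x v = 0` -/

/-- length bound -/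
def FU : ℕ := 4096

/-- all literals are false -/
def clF : ℕ → ℕ → ℕ → ℕ → Bool :=
  fun n => Nat.rec (motive := fun _ => ℕ → ℕ → ℕ → Bool) (fun _ _ _ => false)
    (fun _ ih C T F => Bool.rec (motive := fun _ => Bool)
      (Bool.rec (motive := fun _ => Bool)
        false (ih (Nat.shiftRight C 16) T F)
        (tb (Bool.rec (motive := fun _ => ℕ) T F (Nat.beq (Nat.land C 1) 0))
          (Nat.land (Nat.shiftRight C 1) 32767)))
      true (Nat.beq C 0)) n

/-- the clause is satisfied -/
def sat (x : ℕ → ℤ) : ℕ → ℕ → Prop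
  | 0, _ => False
  | n + 1, C => C ≠ 0 ∧
      ((if C &&& 1 = 0 then x ((C >>> 1) &&& 32767) = 1 else x ((C >>> 1) &&& 32767) = 0) ∨
        sat x n (C >>> 16))

theorem clF_ok {x : ℕ → ℤ} {T F : ℕ} (h : Ok x T F) (n : ℕ) : ∀ C : ℕ, clF n C T F = true →
    ¬ sat x n C := by
  induction n with
  | zero => intro C hC; exact fun h => h
  | succ n ih =>
    intro C hC
    have e : clF (n + 1) C T F = Bool.rec (motive := fun _ => Bool)
      (Bool.rec (motive := fun _ => Bool)
        false (clF n (Nat.shiftRight C 16) T F)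
        (tb (Bool.rec (motive := fun _ => ℕ) T F (Nat.beq (Nat.land C 1) 0))
          (Nat.land (Nat.shiftRight C 1) 32767)))
      true (Nat.beq C 0) := rfl
    rw [e] at hC
    rintro ⟨h0, h1⟩
    have hC0 : Nat.beq C 0 = false := by
      rw [← Bool.not_eq_true]
      intro h2
      exact h0 (Nat.eq_of_beq_eq_true h2)
    rw [hC0] at hC
    cases h3 : tb (Bool.rec (motive := fun _ => ℕ) T F (Nat.beq (Nat.land C 1) 0))
          (Nat.land (Nat.shiftRight C 1) 32767) with
    | false => rw [h3] at hC; exact Bool.noConfusion hC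
    | true =>
      rw [h3] at hC
      rcases h1 with h1 | h1
      · cases h4 : Nat.beq (Nat.land C 1) 0 with
        | true =>
          rw [h4] at h3
          have h5 : C &&& 1 = 0 := Nat.eq_of_beq_eq_true h4
          rw [if_pos h5] at h1
          have h6 := h.2 _ h3
          have h7 : x ((C >>> 1) &&& 32767) = 0 := h6
          rw [h1] at h7
          exact one_ne_zero h7
        | false =>
          rw [h4] at h3
          have h5 : ¬ (C &&& 1 = 0) := by
            intro h5
            have h8 : Nat.beq (Nat.land C 1) 0 = true := by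
              have : Nat.land C 1 = 0 := h5
              rw [this]
              rfl
            rw [h4] at h8
            exact Bool.noConfusion h8
          rw [if_neg h5] at h1
          have h6 := h.1 _ h3
          have h7 : x ((C >>> 1) &&& 32767) = 1 := h6
          rw [h1] at h7
          exact zero_ne_one h7
      · exact ih _ hC h1

/-- make all literals of a clause false, then continue -/
def asg (K : ℕ → ℕ → Bool) : ℕ → ℕ → ℕ → ℕ → Bool :=
  fun n => Nat.rec (motive := fun _ => ℕ → ℕ → ℕ → Bool) (fun _ _ _ => false)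
    (fun _ ih C T F => Bool.rec (motive := fun _ => Bool)
      (Bool.rec (motive := fun _ => Bool)
        (ih (Nat.shiftRight C 16) (ad T (Nat.land (Nat.shiftRight C 1) 32767)) F)
        (ih (Nat.shiftRight C 16) T (ad F (Nat.land (Nat.shiftRight C 1) 32767)))
        (Nat.beq (Nat.land C 1) 0))
      (K T F) (Nat.beq C 0)) n

theorem asg_ok {x : ℕ → ℤ} (hx : ∀ v, x v = 0 ∨ x v = 1) (K : ℕ → ℕ → Bool) (n : ℕ) :
    ∀ C T F : ℕ, Ok x T F → ¬ sat x n C → asg K n C T F = true →
      ∃ T' F', Ok x T' F' ∧ K T' F' = true := by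
  induction n with
  | zero => intro C T F _ _ h; exact Bool.noConfusion h
  | succ n ih =>
    intro C T F hok hs hK
    have e : asg K (n + 1) C T F = Bool.rec (motive := fun _ => Bool)
      (Bool.rec (motive := fun _ => Bool)
        (asg K n (Nat.shiftRight C 16) (ad T (Nat.land (Nat.shiftRight C 1) 32767)) F)
        (asg K n (Nat.shiftRight C 16) T (ad F (Nat.land (Nat.shiftRight C 1) 32767)))
        (Nat.beq (Nat.land C 1) 0))
      (K T F) (Nat.beq C 0) := rfl
    rw [e] at hK
    cases hC0 : Nat.beq C 0 with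
    | true => rw [hC0] at hK; exact ⟨T, F, hok, hK⟩
    | false =>
      rw [hC0] at hK
      have h0 : C ≠ 0 := by
        intro h
        rw [h] at hC0
        exact Bool.noConfusion hC0
      have h1 : ¬ ((if C &&& 1 = 0 then x ((C >>> 1) &&& 32767) = 1 else
        x ((C >>> 1) &&& 32767) = 0) ∨ sat x n (C >>> 16)) := fun h => hs ⟨h0, h⟩
      rw [not_or] at h1
      cases h4 : Nat.beq (Nat.land C 1) 0 with
      | true =>
        rw [h4] at hK
        have h5 : C &&& 1 = 0 := Nat.eq_of_beq_eq_true h4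
        rw [if_pos h5] at h1
        refine ih _ _ _ (hok.addF _ ?_) h1.2 hK
        rcases hx ((C >>> 1) &&& 32767) with h6 | h6
        · exact h6
        · exact absurd h6 h1.1
      | false =>
        rw [h4] at hK
        have h5 : ¬ (C &&& 1 = 0) := by
          intro h5
          have h8 : Nat.beq (Nat.land C 1) 0 = true := by
            have : Nat.land C 1 = 0 := h5
            rw [this]
            rfl
          rw [h4] at h8
          exact Bool.noConfusion h8
        rw [if_neg h5] at h1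
        refine ih _ _ _ (hok.addT _ ?_) h1.2 hK
        rcases hx ((C >>> 1) &&& 32767) with h6 | h6
        · exact absurd h6 h1.1
        · exact h6

/-! the machine -/

section run

variable (E : ℕ) (rl : ℕ → Rl) (cl : ℕ → ℕ)

/-- lower end of the edge `e` -/
def eA (e : ℕ) : ℕ := Nat.land (Nat.shiftRight E (Nat.mul 32 e)) 65535

/-- upper end of the edge `e` -/
def eB (e : ℕ) : ℕ := Nat.land (Nat.shiftRight E (Nat.add (Nat.mul 32 e) 16)) 65535

/-- if-then-else on booleans -/
@[reducible] def bif3 (b c d : Bool) : Bool := Bool.rec (motive := fun _ => Bool) d c b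

/-- run the steps packed in `S` (each of 48 bits: operation 3 bits, index 16 bits, variable 16 bits,
direction 1 bit) -/
def run (k : ℕ) (K : ℕ → ℕ → Bool) : ℕ → ℕ → ℕ → ℕ → Bool :=
  fun n => Nat.rec (motive := fun _ => ℕ → ℕ → ℕ → Bool) (fun _ _ _ => false)
    (fun _ ih S T F => bif3 (Nat.beq S 0) (K T F)
      (bif3 (Nat.beq (Nat.land S 7) 1)
        -- order step upwards
        (bif3 (tb T (eA E (Nat.land (Nat.shiftRight S 3) 65535)))
          (ih (Nat.shiftRight S 48) (ad T (eB E (Nat.land (Nat.shiftRight S 3) 65535))) F) false)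
      (bif3 (Nat.beq (Nat.land S 7) 2)
        -- order step downwards
        (bif3 (tb F (eB E (Nat.land (Nat.shiftRight S 3) 65535)))
          (ih (Nat.shiftRight S 48) T (ad F (eA E (Nat.land (Nat.shiftRight S 3) 65535)))) false)
      (bif3 (Nat.beq (Nat.land S 7) 3)
        -- relation, plus
        (bif3 (Rl.bad (rl (Nat.land (Nat.shiftRight S 3) 65535)) (Nat.land (Nat.shiftRight S 35) 1)
            T (ad F (Nat.land (Nat.shiftRight S 19) 65535)))
          (ih (Nat.shiftRight S 48) (ad T (Nat.land (Nat.shiftRight S 19) 65535)) F) false)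
      (bif3 (Nat.beq (Nat.land S 7) 4)
        -- relation, minus
        (bif3 (Rl.bad (rl (Nat.land (Nat.shiftRight S 3) 65535)) (Nat.land (Nat.shiftRight S 35) 1)
            (ad T (Nat.land (Nat.shiftRight S 19) 65535)) F)
          (ih (Nat.shiftRight S 48) T (ad F (Nat.land (Nat.shiftRight S 19) 65535))) false)
      (bif3 (Nat.beq (Nat.land S 7) 5)
        -- clause, plus
        (bif3 (Nat.ble (Nat.succ (Nat.land (Nat.shiftRight S 3) 65535)) k)
          (bif3 (clF FU (cl (Nat.land (Nat.shiftRight S 3) 65535)) T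
              (ad F (Nat.land (Nat.shiftRight S 19) 65535)))
            (ih (Nat.shiftRight S 48) (ad T (Nat.land (Nat.shiftRight S 19) 65535)) F) false)
          false)
      (bif3 (Nat.beq (Nat.land S 7) 6)
        -- clause, minus
        (bif3 (Nat.ble (Nat.succ (Nat.land (Nat.shiftRight S 3) 65535)) k)
          (bif3 (clF FU (cl (Nat.land (Nat.shiftRight S 3) 65535))
              (ad T (Nat.land (Nat.shiftRight S 19) 65535)) F)
            (ih (Nat.shiftRight S 48) T (ad F (Nat.land (Nat.shiftRight S 19) 65535))) false)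
          false)
        -- conflict
        (bif3 (tb T (Nat.land (Nat.shiftRight S 19) 65535))
          (tb F (Nat.land (Nat.shiftRight S 19) 65535)) false)))))))) n

theorem bif3_t {b c : Bool} (h : bif3 b c false = true) : b = true ∧ c = true := by
  cases b with
  | true => exact ⟨rfl, h⟩
  | false => exact Bool.noConfusion h

theorem bif3_c {b c d : Bool} (h : bif3 b c d = true) : (b = true ∧ c = true) ∨ d = true := by
  cases b with
  | true => exact Or.inl ⟨rfl, h⟩
  | false => exact Or.inr h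

theorem run_ok {x : ℕ → ℤ} (hx : ∀ v, x v = 0 ∨ x v = 1) (hE : ∀ e, x (eA E e) ≤ x (eB E e))
    (hR : ∀ j, (rl j).Hold x) (k : ℕ) (hC : ∀ j, j < k → sat x FU (cl j)) (K : ℕ → ℕ → Bool)
    (n : ℕ) : ∀ S T F : ℕ, Ok x T F → run E rl cl k K n S T F = true →
      ∃ T' F', Ok x T' F' ∧ K T' F' = true := by
  induction n with
  | zero => intro S T F _ h; exact Bool.noConfusion h
  | succ n ih =>
    intro S T F hok h
    set i := Nat.land (Nat.shiftRight S 3) 65535 with hi
    set v := Nat.land (Nat.shiftRight S 19) 65535 with hv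
    set d := Nat.land (Nat.shiftRight S 35) 1 with hd
    have e : run E rl cl k K (n + 1) S T F = bif3 (Nat.beq S 0) (K T F)
      (bif3 (Nat.beq (Nat.land S 7) 1)
        (bif3 (tb T (eA E i)) (run E rl cl k K n (Nat.shiftRight S 48) (ad T (eB E i)) F) false)
      (bif3 (Nat.beq (Nat.land S 7) 2)
        (bif3 (tb F (eB E i)) (run E rl cl k K n (Nat.shiftRight S 48) T (ad F (eA E i))) false)
      (bif3 (Nat.beq (Nat.land S 7) 3)
        (bif3 (Rl.bad (rl i) d T (ad F v)) (run E rl cl k K n (Nat.shiftRight S 48) (ad T v) F)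
          false)
      (bif3 (Nat.beq (Nat.land S 7) 4)
        (bif3 (Rl.bad (rl i) d (ad T v) F) (run E rl cl k K n (Nat.shiftRight S 48) T (ad F v))
          false)
      (bif3 (Nat.beq (Nat.land S 7) 5)
        (bif3 (Nat.ble (Nat.succ i) k)
          (bif3 (clF FU (cl i) T (ad F v)) (run E rl cl k K n (Nat.shiftRight S 48) (ad T v) F)
            false) false)
      (bif3 (Nat.beq (Nat.land S 7) 6)
        (bif3 (Nat.ble (Nat.succ i) k)
          (bif3 (clF FU (cl i) (ad T v) F) (run E rl cl k K n (Nat.shiftRight S 48) T (ad F v))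
            false) false)
        (bif3 (tb T v) (tb F v) false))))))) := rfl
    rw [e] at h
    rcases bif3_c h with ⟨_, h1⟩ | h
    · exact ⟨T, F, hok, h1⟩
    rcases bif3_c h with ⟨_, h1⟩ | h
    · obtain ⟨h2, h3⟩ := bif3_t h1
      refine ih _ _ _ (hok.addT _ ?_) h3
      have h4 := hE i
      rw [hok.1 _ h2] at h4
      rcases hx (eB E i) with h5 | h5
      · rw [h5] at h4; norm_num at h4
      · exact h5
    rcases bif3_c h with ⟨_, h1⟩ | h
    · obtain ⟨h2, h3⟩ := bif3_t h1
      refine ih _ _ _ (hok.addF _ ?_) h3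
      have h4 := hE i
      rw [hok.2 _ h2] at h4
      rcases hx (eA E i) with h5 | h5
      · exact h5
      · rw [h5] at h4; norm_num at h4
    rcases bif3_c h with ⟨_, h1⟩ | h
    · obtain ⟨h2, h3⟩ := bif3_t h1
      refine ih _ _ _ (hok.addT _ ?_) h3
      rcases hx v with h5 | h5
      · exact (bad_false hx (hok.addF v h5) _ (hR i) _ h2).elim
      · exact h5
    rcases bif3_c h with ⟨_, h1⟩ | h
    · obtain ⟨h2, h3⟩ := bif3_t h1
      refine ih _ _ _ (hok.addF _ ?_) h3
      rcases hx v with h5 | h5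
      · exact h5
      · exact (bad_false hx (hok.addT v h5) _ (hR i) _ h2).elim
    rcases bif3_c h with ⟨_, h1⟩ | h
    · obtain ⟨h0, h1⟩ := bif3_t h1
      obtain ⟨h2, h3⟩ := bif3_t h1
      have hik : i < k := Nat.le_of_ble_eq_true h0
      refine ih _ _ _ (hok.addT _ ?_) h3
      rcases hx v with h5 | h5
      · exact (clF_ok (hok.addF v h5) FU _ h2 (hC i hik)).elim
      · exact h5
    rcases bif3_c h with ⟨_, h1⟩ | h
    · obtain ⟨h0, h1⟩ := bif3_t h1
      obtain ⟨h2, h3⟩ := bif3_t h1
      have hik : i < k := Nat.le_of_ble_eq_true h0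
      refine ih _ _ _ (hok.addF _ ?_) h3
      rcases hx v with h5 | h5
      · exact h5
      · exact (clF_ok (hok.addT v h5) FU _ h2 (hC i hik)).elim
    · obtain ⟨h2, h3⟩ := bif3_t h
      have h4 := hok.1 _ h2
      have h5 := hok.2 _ h3
      rw [h4] at h5
      exact absurd h5 one_ne_zero

/-- run the items: `S` with the last bit `0`: the steps persist; last bit `1`: clause number `k` -/
def runI (K : ℕ → ℕ → ℕ → Bool) : List ℕ → ℕ → ℕ → ℕ → Bool
  | [], k, T, F => K k T F
  | S :: l, k, T, F => bif3 (Nat.beq (Nat.land S 1) 0)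
      (run E rl cl k (fun T' F' => runI K l k T' F') FU (Nat.shiftRight S 1) T F)
      (bif3 (asg (fun T' F' => run E rl cl k (fun _ _ => false) FU (Nat.shiftRight S 1) T' F') FU
        (cl k) T F) (runI K l (Nat.succ k) T F) false)

theorem runI_ok {x : ℕ → ℤ} (hx : ∀ v, x v = 0 ∨ x v = 1) (hE : ∀ e, x (eA E e) ≤ x (eB E e))
    (hR : ∀ j, (rl j).Hold x) (K : ℕ → ℕ → ℕ → Bool) (l : List ℕ) : ∀ k T F : ℕ,
    (∀ j, j < k → sat x FU (cl j)) → Ok x T F → runI E rl cl K l k T F = true →
      ∃ k' T' F', (∀ j, j < k' → sat x FU (cl j)) ∧ Ok x T' F' ∧ K k' T' F' = true := by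
  induction l with
  | nil => intro k T F h1 h2 h3; exact ⟨k, T, F, h1, h2, h3⟩
  | cons S l ih =>
    intro k T F h1 h2 h3
    have e : runI E rl cl K (S :: l) k T F = bif3 (Nat.beq (Nat.land S 1) 0)
      (run E rl cl k (fun T' F' => runI E rl cl K l k T' F') FU (Nat.shiftRight S 1) T F)
      (bif3 (asg (fun T' F' => run E rl cl k (fun _ _ => false) FU (Nat.shiftRight S 1) T' F') FU
        (cl k) T F) (runI E rl cl K l (Nat.succ k) T F) false) := rfl
    rw [e] at h3
    rcases bif3_c h3 with ⟨_, h4⟩ | h4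
    · obtain ⟨T', F', h5, h6⟩ := run_ok E rl cl hx hE hR k h1 _ FU _ _ _ h2 h4
      exact ih _ _ _ h1 h5 h6
    · obtain ⟨h5, h6⟩ := bif3_t h4
      refine ih _ _ _ (fun j hj => ?_) h2 h6
      by_cases hjk : j < k
      · exact h1 j hjk
      · have hjk' : j = k := by omega
        subst hjk'
        by_contra hs
        obtain ⟨T', F', h7, h8⟩ := asg_ok hx _ FU _ _ _ h2 hs h5
        obtain ⟨T'', F'', _, h9⟩ := run_ok E rl cl hx hE hR j h1 _ FU _ _ _ h7 h8
        exact Bool.noConfusion h9

end run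

/-! tables -/

/-- binary tree -/
inductive Tr (α : Type)
  | l (a : α)
  | b (s t : Tr α)

/-- look up; the bits of the index from the lowest -/
def Tr.get {α : Type} : Tr α → ℕ → α
  | .l a, _ => a
  | .b s t, i => Bool.rec (motive := fun _ => α) (Tr.get t (Nat.shiftRight i 1))
      (Tr.get s (Nat.shiftRight i 1)) (Nat.beq (Nat.land i 1) 0)

/-- property of all entries -/
def Tr.All {α : Type} (p : α → Prop) : Tr α → Prop
  | .l a => p a
  | .b s t => Tr.All p s ∧ Tr.All p t

theorem Tr.get_all {α : Type} (p : α → Prop) (t : Tr α) (h : t.All p) : ∀ i, p (t.get i) := by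
  induction t with
  | l a => intro i; exact h
  | b s t ihs iht =>
    intro i
    have e : Tr.get (.b s t) i = Bool.rec (motive := fun _ => α) (Tr.get t (Nat.shiftRight i 1))
      (Tr.get s (Nat.shiftRight i 1)) (Nat.beq (Nat.land i 1) 0) := rfl
    rw [e]
    cases Nat.beq (Nat.land i 1) 0 with
    | true => exact ihs h.1 _
    | false => exact iht h.2 _

end Pool.Agent.H70.KP
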