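import Mathlib
import Pool.Agent.H70.KP.Eng
import Pool.Agent.L0h93.Karp.Act

set_option autoImplicit false

/-! MP_257582_lc: check of the order relations used by a certificate, and one segment. -/

namespace Pool.Agent.H70.KP

open Pool.Agent.L0h93.Karp.M5 (dmF an an_t okD pcd dmF_ok gr force force_eq)

/-- check of the first `n` edges; code in 10 bits: exchange `c / 128`, permutation `c % 128` -/
noncomputable def chkE (ent : ℕ → ℕ) : ℕ → ℕ → ℕ → Bool :=
  fun n => Nat.rec (motive := fun _ => ℕ → ℕ → Bool) (fun E _ => Nat.beq E 0)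
    (fun _ ih E C => an (dmF (Nat.land (Nat.shiftRight C 7) 7) (Nat.land C 127)
        (ent (Nat.land E 65535)) (ent (Nat.land (Nat.shiftRight E 16) 65535)))
      (ih (Nat.shiftRight E 32) (Nat.shiftRight C 10))) n

theorem eA_zero (E : ℕ) : eA E 0 = Nat.land E 65535 := by
  unfold eA
  rfl

theorem eB_zero (E : ℕ) : eB E 0 = Nat.land (Nat.shiftRight E 16) 65535 := by
  unfold eB
  rfl

theorem eA_succ (E e : ℕ) : eA E (e + 1) = eA (Nat.shiftRight E 32) e := by
  have h : E >>> (32 * (e + 1)) = (E >>> 32) >>> (32 * e) := by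
    rw [← Nat.shiftRight_add]
    congr 1
    ring
  show Nat.land (E >>> (32 * (e + 1))) 65535 = Nat.land ((E >>> 32) >>> (32 * e)) 65535
  rw [h]

theorem eB_succ (E e : ℕ) : eB E (e + 1) = eB (Nat.shiftRight E 32) e := by
  have h : E >>> (32 * (e + 1) + 16) = (E >>> 32) >>> (32 * e + 16) := by
    rw [← Nat.shiftRight_add]
    congr 1
    ring
  show Nat.land (E >>> (32 * (e + 1) + 16)) 65535 = Nat.land ((E >>> 32) >>> (32 * e + 16)) 65535
  rw [h]

theorem eA_z (e : ℕ) : eA 0 e = 0 := by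
  show Nat.land (0 >>> (32 * e)) 65535 = 0
  rw [Nat.zero_shiftRight]
  rfl

theorem eB_z (e : ℕ) : eB 0 e = 0 := by
  show Nat.land (0 >>> (32 * e + 16)) 65535 = 0
  rw [Nat.zero_shiftRight]
  rfl

theorem chkE_ok {f : ℕ → ℤ} (hf : ∀ i π a b, okD i π a b = true → f a ≤ f b) (ent : ℕ → ℕ) (n : ℕ) :
    ∀ E C : ℕ, chkE ent n E C = true → ∀ e, f (ent (eA E e)) ≤ f (ent (eB E e)) := by
  induction n with
  | zero =>
    intro E C h e
    have h0 : E = 0 := Nat.eq_of_beq_eq_true h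
    rw [h0, eA_z, eB_z]
  | succ n ih =>
    intro E C h e
    have h' : an (dmF (Nat.land (Nat.shiftRight C 7) 7) (Nat.land C 127)
        (ent (Nat.land E 65535)) (ent (Nat.land (Nat.shiftRight E 16) 65535)))
      (chkE ent n (Nat.shiftRight E 32) (Nat.shiftRight C 10)) = true := h
    obtain ⟨h1, h2⟩ := an_t h'
    cases e with
    | zero =>
      rw [eA_zero, eB_zero]
      exact hf _ _ _ _ (dmF_ok _ _ _ _ h1)
    | succ e =>
      rw [eA_succ, eB_succ]
      exact ih _ _ h2 e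

/-- the clauses with numbers `< k` hold and the state is right -/
def Stt (x : ℕ → ℤ) (cl : ℕ → ℕ) (k T F : ℕ) : Prop :=
  (∀ j, j < k → sat x FU (cl j)) ∧ Ok x T F

/-- the final test of a segment -/
def Kf (k1 T1 F1 k T F : ℕ) : Bool := bif3 (Nat.beq k k1) (bif3 (Nat.beq T T1) (Nat.beq F F1) false)
  false

/-- one segment -/
theorem seg {f : ℕ → ℤ} (h01 : ∀ m, f m = 0 ∨ f m = 1)
    (hf : ∀ i π a b, okD i π a b = true → f a ≤ f b) (ent : ℕ → ℕ) (rl : ℕ → Rl) (cl : ℕ → ℕ)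
    (hR : ∀ j, (rl j).Hold (fun v => f (ent v))) {n E C k1 T1 F1 k T F : ℕ} {l : List ℕ}
    (hE : chkE ent n E C = true) (h : runI E rl cl (Kf k1 T1 F1) l k T F = true)
    (hs : Stt (fun v => f (ent v)) cl k T F) : Stt (fun v => f (ent v)) cl k1 T1 F1 := by
  obtain ⟨k', T', F', h1, h2, h3⟩ := runI_ok (x := fun v => f (ent v)) E rl cl
    (fun v => h01 _) (fun e => chkE_ok hf ent n E C hE e) hR (Kf k1 T1 F1) l k T F hs.1 hs.2 h
  obtain ⟨h4, h5⟩ := bif3_t h3
  obtain ⟨h6, h7⟩ := bif3_t h5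
  have e1 : k' = k1 := Nat.eq_of_beq_eq_true h4
  have e2 : T' = T1 := Nat.eq_of_beq_eq_true h6
  have e3 : F' = F1 := Nat.eq_of_beq_eq_true h7
  subst e1 e2 e3
  exact ⟨h1, h2⟩

/-- the last segment -/
theorem segL {f : ℕ → ℤ} (h01 : ∀ m, f m = 0 ∨ f m = 1)
    (hf : ∀ i π a b, okD i π a b = true → f a ≤ f b) (ent : ℕ → ℕ) (rl : ℕ → Rl) (cl : ℕ → ℕ)
    (hR : ∀ j, (rl j).Hold (fun v => f (ent v))) {n E C k T F : ℕ} {l : List ℕ}
    (hE : chkE ent n E C = true) (h : runI E rl cl (fun _ _ _ => false) l k T F = true)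
    (hs : Stt (fun v => f (ent v)) cl k T F) : False := by
  obtain ⟨k', T', F', h1, h2, h3⟩ := runI_ok (x := fun v => f (ent v)) E rl cl
    (fun v => h01 _) (fun e => chkE_ok hf ent n E C hE e) hR (fun _ _ _ => false) l k T F hs.1 hs.2 h
  exact Bool.noConfusion h3

/-- state from a packed list (16 bits each) of variables -/
def mkS : ℕ → ℕ → ℕ → ℕ :=
  fun n => Nat.rec (motive := fun _ => ℕ → ℕ → ℕ) (fun _ acc => acc)
    (fun _ ih L acc => ih (Nat.shiftRight L 16) (ad acc (Nat.land L 65535))) n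

/-- all variables of a packed list satisfy a test -/
def allV (p : ℕ → Bool) : ℕ → ℕ → Bool :=
  fun n => Nat.rec (motive := fun _ => ℕ → Bool) (fun _ => true)
    (fun _ ih L => an (p (Nat.land L 65535)) (ih (Nat.shiftRight L 16))) n

theorem mkS_okT {x : ℕ → ℤ} (p : ℕ → Bool) (hp : ∀ v, p v = true → x v = 1) (n : ℕ) :
    ∀ L acc F : ℕ, allV p n L = true → Ok x acc F → Ok x (mkS n L acc) F := by
  induction n with
  | zero => intro L acc F _ h; exact h
  | succ n ih =>
    intro L acc F h hok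
    have h' : an (p (Nat.land L 65535)) (allV p n (Nat.shiftRight L 16)) = true := h
    obtain ⟨h1, h2⟩ := an_t h'
    exact ih _ _ _ h2 (hok.addT _ (hp _ h1))

theorem mkS_okF {x : ℕ → ℤ} (p : ℕ → Bool) (hp : ∀ v, p v = true → x v = 0) (n : ℕ) :
    ∀ L acc T : ℕ, allV p n L = true → Ok x T acc → Ok x T (mkS n L acc) := by
  induction n with
  | zero => intro L acc T _ h; exact h
  | succ n ih =>
    intro L acc T h hok
    have h' : an (p (Nat.land L 65535)) (allV p n (Nat.shiftRight L 16)) = true := h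
    obtain ⟨h1, h2⟩ := an_t h'
    exact ih _ _ _ h2 (hok.addF _ (hp _ h1))

end Pool.Agent.H70.KP
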