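import Mathlib
import Pool.Agent.L0h93.Karp.Act
import Pool.Agent.L0h93.Karp.RelX
import Pool.Agent.L0h93.Karp.SnapD

set_option autoImplicit false

/-! MP_257582_lc: kernel-fast check of the relations, after `Pool.Agent.L0h93.Karp.RelC`, with longer hints. -/

namespace Pool.Agent.H70.KP.R2

open Finset
open Pool.Agent.H119R2.Kp
open Pool.Agent.H70.KP (Tr Rl sW)
open Pool.Agent.N593.Karp Pool.Agent.L0h93.Karp Pool.Agent.L0h93.Karp.M5

/-- classes with the sizes of the lower halves of the hints -/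
inductive WL
  | nil
  | c (w m : ℕ) (t : WL)

/-- the classes -/
def WL.ws : WL → List ℕ
  | .nil => []
  | .c w _ t => w :: t.ws

/-- value of a leaf: index `σ + 32 i`, or a large index if the check fails -/
@[reducible] noncomputable def lf (tab : Tr ℕ) (LM G h σ : ℕ) : ℕ :=
  Bool.rec (motive := fun _ => ℕ) (Nat.shiftLeft 1 131072)
    (Nat.shiftLeft 1 (Nat.add (Nat.mul 32 (Nat.land h 2047)) σ))
    (Nat.beq (act (gr tab (Nat.shiftRight h 11)) G) (en24 LM (Nat.land h 2047)))

/-- evaluation of the alternating sum -/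
noncomputable def ev (tab : Tr ℕ) (LM : ℕ) : WL → ℕ → ℕ → ℕ → ℕ → ℕ := fun wl =>
  WL.rec (motive := fun _ => ℕ → ℕ → ℕ → ℕ → ℕ)
    (fun G H σ _ => force (Nat.land H 16777215) fun h => lf tab LM G h σ)
    (fun w m _ ih G H σ τ => Nat.add (ih G H σ τ)
      (force (Nat.lor G w) fun G => force (Nat.shiftRight H m) fun H => ih G H τ σ)) wl

/-- the same with a list of indices -/
noncomputable def lv (tab : Tr ℕ) (LM : ℕ) : WL → ℕ → ℕ → Bool → List ℕ
  | .nil, G, H, s => [Bool.rec (motive := fun _ => ℕ) 8192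
      (2 * (Nat.land (Nat.land H 16777215) 2047) + (if s = true then 1 else 0))
      (Nat.beq (act (gr tab (Nat.shiftRight (Nat.land H 16777215) 11)) G)
        (en24 LM (Nat.land (Nat.land H 16777215) 2047)))]
  | .c w m t, G, H, s => lv tab LM t G H s ++ lv tab LM t (Nat.lor G w) (Nat.shiftRight H m) (!s)

/-- encoding of a list of indices -/
def enc (L : List ℕ) : ℕ := (L.map (fun j => 2 ^ (16 * j))).sum

/-- sign as a shift -/
def sg (s : Bool) : ℕ := if s = true then 16 else 0

theorem enc_append (A B : List ℕ) : enc (A ++ B) = enc A + enc B := by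
  simp [enc]

theorem sl_pow (i : ℕ) : Nat.shiftLeft 1 i = 2 ^ i := by
  have : Nat.shiftLeft 1 i = 1 <<< i := rfl
  rw [this, Nat.shiftLeft_eq, one_mul]

theorem ev_enc (tab : Tr ℕ) (LM : ℕ) (wl : WL) : ∀ (G H : ℕ) (s : Bool),
    ev tab LM wl G H (sg s) (sg (!s)) = enc (lv tab LM wl G H s) := by
  induction wl with
  | nil =>
    intro G H s
    have e : ev tab LM .nil G H (sg s) (sg (!s)) =
        force (Nat.land H 16777215) fun h => lf tab LM G h (sg s) := rfl
    rw [e, force_eq]
    unfold lf lv enc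
    cases Nat.beq (act (gr tab (Nat.shiftRight (Nat.land H 16777215) 11)) G)
        (en24 LM (Nat.land (Nat.land H 16777215) 2047)) with
    | false =>
      show Nat.shiftLeft 1 131072 = _
      rw [sl_pow, List.map_cons, List.map_nil, List.sum_cons, List.sum_nil, add_zero]
      show 2 ^ 131072 = 2 ^ (16 * 8192)
      rfl
    | true =>
      show Nat.shiftLeft 1 (Nat.add (Nat.mul 32 (Nat.land (Nat.land H 16777215) 2047)) (sg s)) = _
      rw [sl_pow, List.map_cons, List.map_nil, List.sum_cons, List.sum_nil, add_zero]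
      congr 1
      show 32 * (Nat.land (Nat.land H 16777215) 2047) + sg s = _
      unfold sg
      cases s
      · simp; ring
      · simp; ring
  | c w m t ih =>
    intro G H s
    have e : ev tab LM (.c w m t) G H (sg s) (sg (!s)) = Nat.add (ev tab LM t G H (sg s) (sg (!s)))
      (force (Nat.lor G w) fun G => force (Nat.shiftRight H m) fun H =>
        ev tab LM t G H (sg (!s)) (sg s)) := rfl
    rw [e, force_eq, force_eq]
    have h2 : sg s = sg (!(!s)) := by rw [Bool.not_not]
    rw [show ev tab LM t (Nat.lor G w) (Nat.shiftRight H m) (sg (!s)) (sg s) =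
      ev tab LM t (Nat.lor G w) (Nat.shiftRight H m) (sg (!s)) (sg (!(!s))) by rw [← h2]]
    rw [ih G H s, ih (Nat.lor G w) (Nat.shiftRight H m) (!s)]
    have e5 : lv tab LM (.c w m t) G H s =
      lv tab LM t G H s ++ lv tab LM t (Nat.lor G w) (Nat.shiftRight H m) (!s) := rfl
    rw [e5, enc_append]
    rfl

/-- signed value of an index -/
def zz (f : ℕ → ℤ) (LM j : ℕ) : ℤ := (if j % 2 = 0 then 1 else -1) * f (en24 LM (j / 2))

theorem lv_sum {f : ℕ → ℤ} {tab : Tr ℕ}
    (hper : ∀ p ga gb, Nat.beq (act (gr tab p) ga) gb = true → f ga = f gb) (LM : ℕ) (wl : WL) :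
    ∀ (G H : ℕ) (s : Bool), (∀ j ∈ lv tab LM wl G H s, j ≠ 8192) →
      ((lv tab LM wl G H s).map (zz f LM)).sum = (if s = true then -1 else 1) * alt' f wl.ws G := by
  induction wl with
  | nil =>
    intro G H s hb
    unfold lv at hb ⊢
    cases h : Nat.beq (act (gr tab (Nat.shiftRight (Nat.land H 16777215) 11)) G)
        (en24 LM (Nat.land (Nat.land H 16777215) 2047)) with
    | false =>
      rw [h] at hb
      exact absurd rfl (hb 8192 List.mem_cons_self)
    | true =>
      rw [List.map_cons, List.map_nil, List.sum_cons, List.sum_nil, add_zero]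
      show zz f LM (2 * (Nat.land (Nat.land H 16777215) 2047) + (if s = true then 1 else 0)) =
        (if s = true then -1 else 1) * f G
      rw [hper _ _ _ h]
      unfold zz
      cases s
      · have e1 : (2 * (Nat.land (Nat.land H 16777215) 2047) + 0) % 2 = 0 := by omega
        have e2 : (2 * (Nat.land (Nat.land H 16777215) 2047) + 0) / 2 =
          Nat.land (Nat.land H 16777215) 2047 := by omega
        simp only [Bool.false_eq_true, if_false]
        rw [e1, e2, if_pos rfl]
      · have e1 : (2 * (Nat.land (Nat.land H 16777215) 2047) + 1) % 2 = 1 := by omega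
        have e2 : (2 * (Nat.land (Nat.land H 16777215) 2047) + 1) / 2 =
          Nat.land (Nat.land H 16777215) 2047 := by omega
        simp only [if_true]
        rw [e1, e2, if_neg (by norm_num)]
  | c w m t ih =>
    intro G H s hb
    have e : lv tab LM (.c w m t) G H s =
      lv tab LM t G H s ++ lv tab LM t (Nat.lor G w) (Nat.shiftRight H m) (!s) := rfl
    rw [e] at hb ⊢
    rw [List.map_append, List.sum_append,
      ih G H s (fun j hj => hb j (List.mem_append_left _ hj)),
      ih _ _ (!s) (fun j hj => hb j (List.mem_append_right _ hj))]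
    have e2 : alt' f (WL.c w m t).ws G = alt' f t.ws G - alt' f t.ws (G ||| w) := rfl
    have e3 : Nat.lor G w = G ||| w := rfl
    rw [e2, e3]
    cases s <;> simp <;> ring

theorem lv_len (tab : Tr ℕ) (LM : ℕ) (wl : WL) : ∀ (G H : ℕ) (s : Bool),
    (lv tab LM wl G H s).length = 2 ^ wl.ws.length := by
  induction wl with
  | nil => intro G H s; rfl
  | c w m t ih =>
    intro G H s
    have e : lv tab LM (.c w m t) G H s =
      lv tab LM t G H s ++ lv tab LM t (Nat.lor G w) (Nat.shiftRight H m) (!s) := rfl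
    rw [e, List.length_append, ih, ih]
    have e2 : (WL.c w m t).ws.length = t.ws.length + 1 := rfl
    rw [e2, pow_succ]
    ring

/-! digits -/

/-- number of zeros -/
def c0 (L : List ℕ) : ℕ := (L.filter (fun j => j = 0)).length

/-- the other elements, decreased -/
def dl (L : List ℕ) : List ℕ := (L.filter (fun j => j ≠ 0)).map (fun j => j - 1)

theorem dl_spec (L : List ℕ) : enc L = c0 L + 65536 * enc (dl L) ∧
    c0 L + (dl L).length = L.length ∧ (∀ j ∈ L, j ≠ 0 → j - 1 ∈ dl L) ∧
    ∀ z : ℕ → ℤ, (L.map z).sum = c0 L * z 0 + ((dl L).map (fun j => z (j + 1))).sum := by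
  induction L with
  | nil => simp [enc, c0, dl]
  | cons a L ih =>
    obtain ⟨h1, h2, h3, h4⟩ := ih
    by_cases ha : a = 0
    · subst ha
      have e1 : c0 (0 :: L) = c0 L + 1 := by simp [c0]
      have e2 : dl (0 :: L) = dl L := by simp [dl]
      have e3 : enc (0 :: L) = 1 + enc L := by simp [enc]
      refine ⟨?_, ?_, ?_, ?_⟩
      · rw [e1, e2, e3, h1]; ring
      · rw [e1, e2, List.length_cons]; omega
      · intro j hj hj0
        rw [e2]
        rcases List.mem_cons.mp hj with h | h
        · exact absurd h hj0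
        · exact h3 j h hj0
      · intro z
        rw [e1, e2, List.map_cons, List.sum_cons, h4 z]
        push_cast
        ring
    · obtain ⟨b, rfl⟩ : ∃ b, a = b + 1 := ⟨a - 1, by omega⟩
      have e1 : c0 ((b + 1) :: L) = c0 L := by simp [c0]
      have e2 : dl ((b + 1) :: L) = b :: dl L := by simp [dl]
      have e3 : enc ((b + 1) :: L) = 65536 * 2 ^ (16 * b) + enc L := by
        simp only [enc, List.map_cons, List.sum_cons]
        rw [mul_add, pow_add]
        norm_num
        ring
      have e4 : enc (b :: dl L) = 2 ^ (16 * b) + enc (dl L) := by simp [enc]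
      refine ⟨?_, ?_, ?_, ?_⟩
      · rw [e1, e2, e3, e4, h1]; ring
      · rw [e1, e2, List.length_cons, List.length_cons]; omega
      · intro j hj hj0
        rw [e2]
        rcases List.mem_cons.mp hj with h | h
        · rw [h]; simp
        · exact List.mem_cons_of_mem _ (h3 j h hj0)
      · intro z
        rw [e1, e2, List.map_cons, List.sum_cons, h4 z, List.map_cons, List.sum_cons]
        ring

theorem enc_zero (L : List ℕ) (h : enc L = 0) : L = [] := by
  cases L with
  | nil => rfl
  | cons a L =>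
    exfalso
    have e : enc (a :: L) = 2 ^ (16 * a) + enc L := by simp [enc]
    rw [e] at h
    have : 0 < 2 ^ (16 * a) := by positivity
    omega

/-- sum of the values -/
def SS (f : ℕ → ℤ) (LM : ℕ) (L : List ℕ) : ℤ := (L.map (zz f LM)).sum

theorem land_mod (x : ℕ) : Nat.land x 65535 = x % 65536 := by
  have := Nat.and_two_pow_sub_one_eq_mod x 16
  simpa using this

theorem sr_div (x k : ℕ) : Nat.shiftRight x k = x / 2 ^ k := by
  have : Nat.shiftRight x k = x >>> k := rfl
  rw [this, Nat.shiftRight_eq_div_pow]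

theorem en24_shift (LM i : ℕ) : en24 LM (i + 1) = en24 (Nat.shiftRight LM 24) i := by
  unfold en24
  have e1 : Nat.shiftRight LM (Nat.mul 24 (i + 1)) = LM >>> (24 * (i + 1)) := rfl
  have e2 : Nat.shiftRight (Nat.shiftRight LM 24) (Nat.mul 24 i) = (LM >>> 24) >>> (24 * i) := rfl
  rw [e1, e2, ← Nat.shiftRight_add]
  congr 2
  ring

theorem key2 (f : ℕ → ℤ) (LM : ℕ) (L : List ℕ) (hL : L.length < 65536) :
    ∃ L' : List ℕ, ∃ a b : ℕ, Nat.land (enc L) 65535 = a ∧
      Nat.land (Nat.shiftRight (enc L) 16) 65535 = b ∧ Nat.shiftRight (enc L) 32 = enc L' ∧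
      SS f LM L = ((a : ℤ) - b) * f (Nat.land LM 16777215) + SS f (Nat.shiftRight LM 24) L' ∧
      L'.length ≤ L.length ∧ ∀ j ∈ L, 2 ≤ j → j - 2 ∈ L' := by
  obtain ⟨h1, h2, h3, h4⟩ := dl_spec L
  obtain ⟨k1, k2, k3, k4⟩ := dl_spec (dl L)
  refine ⟨dl (dl L), c0 L, c0 (dl L), ?_, ?_, ?_, ?_, ?_, ?_⟩
  · rw [land_mod]; omega
  · rw [land_mod, sr_div]; omega
  · rw [sr_div]; omega
  · unfold SS
    rw [h4, k4]
    have e0 : zz f LM 0 = f (Nat.land LM 16777215) := by
      unfold zz en24
      simp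
    have e1 : zz f LM (0 + 1) = - f (Nat.land LM 16777215) := by
      unfold zz en24
      simp
    have e2 : (fun j => zz f LM (j + 1 + 1)) = zz f (Nat.shiftRight LM 24) := by
      funext j
      unfold zz
      have e3 : (j + 1 + 1) % 2 = j % 2 := by omega
      have e4 : (j + 1 + 1) / 2 = j / 2 + 1 := by omega
      rw [e3, e4, en24_shift]
    rw [e0, e1, e2]
    ring
  · omega
  · intro j hj hj2
    have h5 := h3 j hj (by omega)
    have h6 := k3 _ h5 (by omega)
    have h7 : j - 1 - 1 = j - 2 := by omega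
    rw [← h7]
    exact h6

/-- the other orbits cancel -/
def fz : ℕ → ℕ → Bool := fun n => Nat.rec (motive := fun _ => ℕ → Bool)
  (fun acc => Nat.beq acc 0)
  (fun _ ih acc => an (Nat.beq (Nat.land acc 65535) (Nat.land (Nat.shiftRight acc 16) 65535))
    (force (Nat.shiftRight acc 32) fun acc => ih acc)) n

theorem fz_ok (f : ℕ → ℤ) (n : ℕ) : ∀ (LM : ℕ) (L : List ℕ), L.length < 65536 →
    fz n (enc L) = true → SS f LM L = 0 ∧ ∀ j ∈ L, j < 2 * n := by
  induction n with
  | zero =>
    intro LM L hL h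
    have h' : Nat.beq (enc L) 0 = true := h
    rw [enc_zero L (Nat.eq_of_beq_eq_true h')]
    simp [SS]
  | succ n ih =>
    intro LM L hL h
    have e : fz (n + 1) (enc L) = an (Nat.beq (Nat.land (enc L) 65535)
      (Nat.land (Nat.shiftRight (enc L) 16) 65535))
      (force (Nat.shiftRight (enc L) 32) fun acc => fz n acc) := rfl
    rw [e, force_eq] at h
    obtain ⟨h1, h2⟩ := an_t h
    obtain ⟨L', a, b, k1, k2, k3, k4, k5, k6⟩ := key2 f LM L hL
    have h3 := Nat.eq_of_beq_eq_true h1
    rw [k1, k2] at h3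
    rw [k3] at h2
    obtain ⟨h4, h5⟩ := ih (Nat.shiftRight LM 24) L' (by omega) h2
    refine ⟨?_, fun j hj => ?_⟩
    · rw [k4, h4, h3]; ring
    · by_cases hj2 : 2 ≤ j
      · have := h5 _ (k6 j hj hj2)
        omega
      · omega

/-- the minus part -/
def fN (ent : ℕ → ℕ) (K : ℕ → Bool) : List ℕ → ℕ → ℕ → Bool := fun l =>
  List.rec (motive := fun _ => ℕ → ℕ → Bool) (fun _ acc => K acc)
    (fun e _ ih LM acc => an (Nat.beq (Nat.add (Nat.land acc 65535) (Nat.land e 255))
      (Nat.land (Nat.shiftRight acc 16) 65535))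
      (an (Nat.beq (Nat.land LM 16777215) (ent (Nat.shiftRight e 8)))
        (force (Nat.shiftRight LM 24) fun LM => force (Nat.shiftRight acc 32) fun acc =>
          ih LM acc))) l

theorem fN_ok (f : ℕ → ℤ) (ent : ℕ → ℕ) (K : ℕ → Bool) (l : List ℕ) : ∀ (LM : ℕ) (L : List ℕ),
    L.length < 65536 → fN ent K l LM (enc L) = true → ∃ LM' L', L'.length < 65536 ∧
      K (enc L') = true ∧ SS f LM L = SS f LM' L' - sW (fun v => f (ent v)) l ∧
      ∀ j ∈ L, 2 * l.length ≤ j → j - 2 * l.length ∈ L' := by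
  induction l with
  | nil =>
    intro LM L hL h
    exact ⟨LM, L, hL, h, by simp [sW], fun j hj _ => by simpa using hj⟩
  | cons e l ih =>
    intro LM L hL h
    have e1 : fN ent K (e :: l) LM (enc L) =
      an (Nat.beq (Nat.add (Nat.land (enc L) 65535) (Nat.land e 255))
      (Nat.land (Nat.shiftRight (enc L) 16) 65535))
      (an (Nat.beq (Nat.land LM 16777215) (ent (Nat.shiftRight e 8)))
        (force (Nat.shiftRight LM 24) fun LM => force (Nat.shiftRight (enc L) 32) fun acc =>
          fN ent K l LM acc)) := rfl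
    rw [e1, force_eq, force_eq] at h
    obtain ⟨h1, h⟩ := an_t h
    obtain ⟨h2, h⟩ := an_t h
    obtain ⟨L', a, b, k1, k2, k3, k4, k5, k6⟩ := key2 f LM L hL
    have h3 := Nat.eq_of_beq_eq_true h1
    have h4 := Nat.eq_of_beq_eq_true h2
    rw [k1, k2] at h3
    rw [k3] at h
    obtain ⟨LM', L'', m1, m2, m3, m4⟩ := ih (Nat.shiftRight LM 24) L' (by omega) h
    refine ⟨LM', L'', m1, m2, ?_, fun j hj hj2 => ?_⟩
    · have e5 : sW (fun v => f (ent v)) (e :: l) =
        ((e &&& 255 : ℕ) : ℤ) * f (ent (e >>> 8)) + sW (fun v => f (ent v)) l := by simp [sW]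
      rw [k4, m3, e5, h4]
      have h3' : (b : ℤ) = a + ((e &&& 255 : ℕ) : ℤ) := by
        rw [← h3]
        rfl
      rw [h3']
      have e6 : f (ent (Nat.shiftRight e 8)) = f (ent (e >>> 8)) := rfl
      rw [e6]
      ring
    · rw [List.length_cons] at hj2 ⊢
      have h5 := k6 j hj (by omega)
      have h6 := m4 _ h5 (by omega)
      have h7 : j - 2 - 2 * l.length = j - 2 * (l.length + 1) := by omega
      rw [← h7]
      exact h6

/-- the plus part -/
def fP (ent : ℕ → ℕ) (K : ℕ → ℕ → Bool) : List ℕ → ℕ → ℕ → Bool := fun l =>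
  List.rec (motive := fun _ => ℕ → ℕ → Bool) (fun LM acc => K LM acc)
    (fun e _ ih LM acc => an (Nat.beq (Nat.add (Nat.land (Nat.shiftRight acc 16) 65535)
      (Nat.land e 255)) (Nat.land acc 65535))
      (an (Nat.beq (Nat.land LM 16777215) (ent (Nat.shiftRight e 8)))
        (force (Nat.shiftRight LM 24) fun LM => force (Nat.shiftRight acc 32) fun acc =>
          ih LM acc))) l

theorem fP_ok (f : ℕ → ℤ) (ent : ℕ → ℕ) (K : ℕ → ℕ → Bool) (l : List ℕ) :
    ∀ (LM : ℕ) (L : List ℕ),
    L.length < 65536 → fP ent K l LM (enc L) = true → ∃ LM' L', L'.length < 65536 ∧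
      K LM' (enc L') = true ∧ SS f LM L = SS f LM' L' + sW (fun v => f (ent v)) l ∧
      ∀ j ∈ L, 2 * l.length ≤ j → j - 2 * l.length ∈ L' := by
  induction l with
  | nil =>
    intro LM L hL h
    exact ⟨LM, L, hL, h, by simp [sW], fun j hj _ => by simpa using hj⟩
  | cons e l ih =>
    intro LM L hL h
    have e1 : fP ent K (e :: l) LM (enc L) =
      an (Nat.beq (Nat.add (Nat.land (Nat.shiftRight (enc L) 16) 65535) (Nat.land e 255))
      (Nat.land (enc L) 65535))
      (an (Nat.beq (Nat.land LM 16777215) (ent (Nat.shiftRight e 8)))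
        (force (Nat.shiftRight LM 24) fun LM => force (Nat.shiftRight (enc L) 32) fun acc =>
          fP ent K l LM acc)) := rfl
    rw [e1, force_eq, force_eq] at h
    obtain ⟨h1, h⟩ := an_t h
    obtain ⟨h2, h⟩ := an_t h
    obtain ⟨L', a, b, k1, k2, k3, k4, k5, k6⟩ := key2 f LM L hL
    have h3 := Nat.eq_of_beq_eq_true h1
    have h4 := Nat.eq_of_beq_eq_true h2
    rw [k1, k2] at h3
    rw [k3] at h
    obtain ⟨LM', L'', m1, m2, m3, m4⟩ := ih (Nat.shiftRight LM 24) L' (by omega) h
    refine ⟨LM', L'', m1, m2, ?_, fun j hj hj2 => ?_⟩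
    · have e5 : sW (fun v => f (ent v)) (e :: l) =
        ((e &&& 255 : ℕ) : ℤ) * f (ent (e >>> 8)) + sW (fun v => f (ent v)) l := by simp [sW]
      rw [k4, m3, e5, h4]
      have h3' : (a : ℤ) = b + ((e &&& 255 : ℕ) : ℤ) := by
        rw [← h3]
        rfl
      rw [h3']
      have e6 : f (ent (Nat.shiftRight e 8)) = f (ent (e >>> 8)) := rfl
      rw [e6]
      ring
    · rw [List.length_cons] at hj2 ⊢
      have h5 := k6 j hj (by omega)
      have h6 := m4 _ h5 (by omega)
      have h7 : j - 2 - 2 * l.length = j - 2 * (l.length + 1) := by omega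
      rw [← h7]
      exact h6

/-- sum of the coefficients -/
def smc : List ℕ → ℕ := fun l => List.rec (motive := fun _ => ℕ) 0
  (fun e _ ih => Nat.add (Nat.land e 255) ih) l

theorem smc_eq (l : List ℕ) : sW (fun _ => 1) l = (smc l : ℤ) := by
  induction l with
  | nil => simp [sW, smc]
  | cons e l ih =>
    have e1 : sW (fun _ => 1) (e :: l) = ((e &&& 255 : ℕ) : ℤ) * 1 + sW (fun _ => 1) l := by
      simp [sW]
    have e2 : smc (e :: l) = (e &&& 255) + smc l := rfl
    rw [e1, e2, ih]
    push_cast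
    ring

/-- length -/
noncomputable def WL.len : WL → ℕ := fun wl => WL.rec (motive := fun _ => ℕ) 0 (fun _ _ _ ih => Nat.succ ih) wl

theorem WL.len_eq (wl : WL) : wl.len = wl.ws.length := by
  induction wl with
  | nil => rfl
  | c w m t ih =>
    show Nat.succ t.len = t.ws.length + 1
    rw [ih]

/-- **check of a relation** -/
noncomputable def okCk (tab : Tr ℕ) (ent : ℕ → ℕ) (wl : WL) (g H LM nz : ℕ) (P N : List ℕ) (c : ℕ) : Bool :=
  an (Nat.ble wl.len 15) (an (Nat.ble (P.length + N.length + nz) 4096)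
    (an (Nat.beq (smc P) c) (an (Nat.beq (smc N) c)
      (force (ev tab LM wl g H 0 16) fun acc =>
        fP ent (fun LM acc => fN ent (fun acc => fz nz acc) N LM acc) P LM acc))))

theorem okCk_ok {f : ℕ → ℤ} {tab : Tr ℕ}
    (hper : ∀ p ga gb, Nat.beq (act (gr tab p) ga) gb = true → f ga = f gb) (ent : ℕ → ℕ)
    (wl : WL) (g H LM nz : ℕ) (P N : List ℕ) (c : ℕ) (h : okCk tab ent wl g H LM nz P N c = true)
    (h0 : alt' f wl.ws g = 0) : (Rl.mk P N c).Hold (fun v => f (ent v)) := by
  unfold okCk at h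
  obtain ⟨h1, h⟩ := an_t h
  obtain ⟨h2, h⟩ := an_t h
  obtain ⟨h3, h⟩ := an_t h
  obtain ⟨h4, h⟩ := an_t h
  rw [force_eq] at h
  have e1 : ev tab LM wl g H 0 16 = enc (lv tab LM wl g H false) := ev_enc tab LM wl g H false
  rw [e1] at h
  have hlen : (lv tab LM wl g H false).length < 65536 := by
    rw [lv_len, ← WL.len_eq]
    have h5 : wl.len ≤ 15 := Nat.le_of_ble_eq_true h1
    calc 2 ^ wl.len ≤ 2 ^ 15 := Nat.pow_le_pow_right (by norm_num) h5
      _ < 65536 := by norm_num
  obtain ⟨LM1, L1, a1, a2, a3, a4⟩ := fP_ok f ent _ P LM _ hlen h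
  obtain ⟨LM2, L2, b1, b2, b3, b4⟩ := fN_ok f ent _ N LM1 L1 a1 a2
  obtain ⟨c1, c2⟩ := fz_ok f nz LM2 L2 b1 b2
  have hn : P.length + N.length + nz ≤ 4096 := Nat.le_of_ble_eq_true h2
  have hbad : ∀ j ∈ lv tab LM wl g H false, j ≠ 8192 := by
    intro j hj hj2
    have h5 := a4 j hj (by omega)
    have h6 := b4 _ h5 (by omega)
    have h7 := c2 _ h6
    omega
  have hs := lv_sum hper LM wl g H false hbad
  rw [h0] at hs
  have hs' : SS f LM (lv tab LM wl g H false) = 0 := by
    unfold SS
    rw [hs]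
    simp
  refine ⟨?_, ?_, ?_⟩
  · rw [a3, b3, c1] at hs'
    linarith
  · rw [smc_eq, Nat.eq_of_beq_eq_true h3]
  · rw [smc_eq, Nat.eq_of_beq_eq_true h4]

/-- data of a relation -/
inductive RD
  | m (t fm g : ℕ) (wl : WL) (H LM nz : ℕ)
  | x (z fm g : ℕ) (wl : WL) (H LM nz : ℕ)

/-- check of the data of a relation -/
noncomputable def okRD (ent : ℕ → ℕ) : RD → Rl → Bool
  | .m t fm g wl H LM nz, .mk P N c => an (okRel t fm g)
      (an (wl.ws == (sel t fm).map Prod.fst) (okCk ptab ent wl g H LM nz P N c))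
  | .x z fm g wl H LM nz, .mk P N c => an (okRelX z fm g)
      (an (wl.ws == (selX z fm).map Prod.fst) (okCk ptab ent wl g H LM nz P N c))

theorem fV_per {n q : ℕ} {P : SimpleGraph (Fin n) → Prop} (hP : GP n q P) (r p : ℕ)
    (i ga gb : ℕ) (h : Nat.beq (act (gr ptab i) ga) gb = true) : fV P r p ga = fV P r p gb :=
  per hP r p (pcd i) ga gb (eqF_ok i ga gb h)

theorem okRD_ok {n q : ℕ} {P : SimpleGraph (Fin n) → Prop} (hP : GP n q P) {r p : ℕ}
    (har : Ar n q r p) (ent : ℕ → ℕ) (d : RD) (rl : Rl) (h : okRD ent d rl = true) :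
    rl.Hold (fun v => fV P r p (ent v)) := by
  have hpf : Fact p.Prime := ⟨har.hp⟩
  have hp : 2 < p := by have := har.hp3; omega
  obtain ⟨P', N, c⟩ := rl
  cases d with
  | m t fm g wl H LM nz =>
    have h' : an (okRel t fm g) (an (wl.ws == (sel t fm).map Prod.fst)
      (okCk ptab ent wl g H LM nz P' N c)) = true := h
    obtain ⟨h1, h2⟩ := an_t h'
    obtain ⟨h2, h3⟩ := an_t h2
    refine okCk_ok (fun i ga gb hi => fV_per hP r p i ga gb hi) ent wl g H LM nz P' N c h3 ?_
    rw [beq_iff_eq] at h2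
    rw [h2]
    exact relM hP r p hp har.hn har.hq t fm g h1
  | x z fm g wl H LM nz =>
    have h' : an (okRelX z fm g) (an (wl.ws == (selX z fm).map Prod.fst)
      (okCk ptab ent wl g H LM nz P' N c)) = true := h
    obtain ⟨h1, h2⟩ := an_t h'
    obtain ⟨h2, h3⟩ := an_t h2
    refine okCk_ok (fun i ga gb hi => fV_per hP r p i ga gb hi) ent wl g H LM nz P' N c h3 ?_
    rw [beq_iff_eq] at h2
    rw [h2]
    exact relX hP har z fm g h1

/-- check of two trees -/
noncomputable def okRT (ent : ℕ → ℕ) : Tr RD → Tr Rl → Bool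
  | .l d, .l r => okRD ent d r
  | .b s t, .b s' t' => an (okRT ent s s') (okRT ent t t')
  | _, _ => false

theorem okRT_ok {n q : ℕ} {P : SimpleGraph (Fin n) → Prop} (hP : GP n q P) {r p : ℕ}
    (har : Ar n q r p) (ent : ℕ → ℕ) (s : Tr RD) : ∀ t : Tr Rl, okRT ent s t = true →
      t.All (fun rl => rl.Hold (fun v => fV P r p (ent v))) := by
  induction s with
  | l d =>
    intro t h
    cases t with
    | l rl => exact okRD_ok hP har ent d rl h
    | b s' t' => exact Bool.noConfusion h
  | b s t ihs iht =>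
    intro t0 h
    cases t0 with
    | l rl => exact Bool.noConfusion h
    | b s' t' =>
      have h' : an (okRT ent s s') (okRT ent t t') = true := h
      obtain ⟨h1, h2⟩ := an_t h'
      exact ⟨ihs s' h1, iht t' h2⟩

end Pool.Agent.H70.KP.R2
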