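import Mathlib
import Pool.Agent.L0h93.Karp.Hm

set_option autoImplicit false

/-! MP_257582_lc: the case facts. -/

namespace Pool.Agent.H70.KP

open Pool.Agent.H119R2.Kp Pool.Agent.N593.Karp Pool.Agent.L0h93.Karp Pool.Agent.L0h93.Karp.M5

/-- fact number `c` (kinds `0, …, 3`): `false`: the patterns disconnected by a union of parts of
size `ky r p c` have the value `0`; `true`: the hub patterns have the value `1` -/
def HD {n : ℕ} (P : SimpleGraph (Fin n) → Prop) (r p c : ℕ) : Bool → Prop
  | false => ∀ A g, okDc c A g = true → fV P r p g = 0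
  | true => ∀ A j g, okHb c A j g = true → fV P r p g = 1

/-- the dual facts -/
def HC {n : ℕ} (P : SimpleGraph (Fin n) → Prop) (r p c : ℕ) : Bool → Prop
  | true => ∀ A g, okCd c A g = true → fV P r p g = 1
  | false => ∀ A j g, okCh c A j g = true → fV P r p g = 0

/-- a fact with the value `1` is forced: `D`, `C` code the four values (bit `2 c`: known,
bit `2 c + 1`: value) -/
def okF1 (D C m : ℕ) : Bool :=
  okS1 m || (List.range 6).any (fun i => okU i m) ||
  (List.range 4).any (fun c => D.testBit (2 * c) && D.testBit (2 * c + 1) &&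
    (kd c).any (fun A => (List.range 6).any (fun j => okHb c A j m))) ||
  (List.range 4).any (fun c => C.testBit (2 * c) && C.testBit (2 * c + 1) &&
    (kd c).any (fun A => okCd c A m))

/-- a fact with the value `0` is forced -/
def okF0 (D C m : ℕ) : Bool :=
  okS0 m || (List.range 6).any (fun i => okZ i m) ||
  (List.range 4).any (fun c => D.testBit (2 * c) && !(D.testBit (2 * c + 1)) &&
    (kd c).any (fun A => okDc c A m)) ||
  (List.range 4).any (fun c => C.testBit (2 * c) && !(C.testBit (2 * c + 1)) &&
    (kd c).any (fun A => (List.range 6).any (fun j => okCh c A j m)))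

/-- the known values of the codes `D`, `C` are right for `P` -/
def Cse {n : ℕ} (P : SimpleGraph (Fin n) → Prop) (r p D C : ℕ) : Prop :=
  (∀ c, c < 4 → D.testBit (2 * c) = true → HD P r p c (D.testBit (2 * c + 1))) ∧
  ∀ c, c < 4 → C.testBit (2 * c) = true → HC P r p c (C.testBit (2 * c + 1))

/-- the forced values are right -/
def S_F1 : Prop := ∀ (n q : ℕ) (P : SimpleGraph (Fin n) → Prop), GP n q P → Star n P →
  ∀ r p : ℕ, Ar n q r p → ∀ D C : ℕ, Cse P r p D C → ∀ m : ℕ,
    (okF1 D C m = true → fV P r p m = 1) ∧ (okF0 D C m = true → fV P r p m = 0)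

/-- one of the two alternatives holds for each fact -/
def S_OR : Prop := ∀ (n q : ℕ) (P : SimpleGraph (Fin n) → Prop), GP n q P → Star n P →
  ∀ r p : ℕ, Ar n q r p → ∀ c : ℕ, c < 4 →
    (HD P r p c false ∨ HD P r p c true) ∧ (HC P r p c false ∨ HC P r p c true)

/-- duality of the facts -/
def S_DU : Prop := ∀ (n q : ℕ) (P : SimpleGraph (Fin n) → Prop), GP n q P →
  ∀ r p : ℕ, r + 5 * p = n → ∀ (c : ℕ) (b : Bool),
    (HC P r p c b → HD (dual P) r p c (!b)) ∧ (HD P r p c b → HC (dual P) r p c (!b))

end Pool.Agent.H70.KP
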